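import Pool.Agent.V7H82.NR.Defs
import Pool.Agent.TH117.BL.Defs

/-!
# Categories of Chow motives over finite fields generated by abelian varieties: definitions
-/

set_option autoImplicit false

universe v u

namespace Pool.Agent.V7H82.MO

open CategoryTheory Pool.Agent.W495.TA Pool.Agent.TH117.BL Pool.Agent.V7H82.NR

/-- The known facts on the category `C` of Chow motives with rational coefficients over a finite field
`k` which is generated by the abelian varieties over `k` that become, over finite extensions, isogenous
to products of powers of the factors of `Z` and of supersingular abelian varieties (the direct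
summands of the Tate twists of the motives of their products):

* the category of motives modulo numerical equivalence is semisimple (Jannsen), so each morphism `f`
  has a quasi-inverse `g` modulo numerically trivial morphisms;
* a numerically trivial morphism `f` from a summand of a twist of the motive of `B` to a summand of a
  twist of the motive of `B'` is a numerically trivial cycle `z` on an abelian variety `Y` (up to a
  finite extension of `k` and an isogeny `Y` is the product of `B × B'` and of supersingular elliptic
  curves; the pull-back is injective), and it is zero if the cycle `z` is zero. -/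
structure MotiveData {p : ℕ} [Fact p.Prime] {ν : PadicAlgCl p ≃+* ℂ} (Ω : Type) [Field Ω]
    [CharZero Ω] (Z : RedAV p ν) (C : Type u) [Category.{v} C] [Preadditive C] where
  NumTriv : ∀ {M N : C}, (M ⟶ N) → Prop
  semisimple : ∀ {M N : C} (f : M ⟶ N), ∃ g : N ⟶ M, NumTriv (f ≫ g ≫ f - f)
  cycle : ∀ {M N : C} (f : M ⟶ N), NumTriv f → ∃ (Y : RedAV p ν) (n : ℕ) (D : ChowData Ω Y n)
    (z : D.A), IsPowersTimesSupersingular Z Y ∧ (∀ w, D.num z w = 0) ∧ (z = 0 → f = 0)

end Pool.Agent.V7H82.MO
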