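import Pool.Agent.V7H82.MO.Reg
import Pool.Agent.V7H82.MO.Defs
import Pool.Agent.V7H82.HT.Elem
import Pool.Agent.V7H82.NR.Main

/-!
# Categories of Chow motives generated by abelian varieties with elementary relations are abelian
-/

set_option autoImplicit false

universe v u

namespace Pool.Agent.V7H82.MO

open CategoryTheory Limits Pool.Agent.W495.TA Pool.Agent.TH117.BL Pool.Agent.V7H82.NR
  Pool.Agent.V7H82.LR

theorem upTo_of_elementary {p : ℕ} [Fact p.Prime] {ν : PadicAlgCl p ≃+* ℂ} {Z : RedAV p ν}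
    (h : HasElementaryRelations Z) (r : ℕ) : HasElementaryUpTo r Z :=
  fun n hn _ => h n hn

theorem main {p : ℕ} [Fact p.Prime] {ν : PadicAlgCl p ≃+* ℂ} (Ω : Type) [Field Ω]
    [IsAlgClosed Ω] [CharZero Ω] {Z : RedAV p ν} (hZ : HasElementaryRelations Z)
    (C : Type u) [Category.{v} C] [Preadditive C] [HasFiniteProducts C] [IsIdempotentComplete C]
    (D : MotiveData Ω Z C) :
    (∀ {M N : C} (f : M ⟶ N), D.NumTriv f → f = 0) ∧
      (∀ {M N : C} (f : M ⟶ N), ∃ g : N ⟶ M, f ≫ g ≫ f = f) ∧ Nonempty (Abelian C) := by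
  have h1 : ∀ {M N : C} (f : M ⟶ N), D.NumTriv f → f = 0 := by
    intro M N f hf
    obtain ⟨Y, n, E, z, hY, hz, h⟩ := D.cycle f hf
    obtain ⟨J, hJ⟩ := rat_num Z (upTo_of_elementary hZ n) Ω Y hY n (Or.inl le_rfl) E
    exact h (hJ z fun w _ => hz w)
  have h2 : ∀ {M N : C} (f : M ⟶ N), ∃ g : N ⟶ M, f ≫ g ≫ f = f := by
    intro M N f
    obtain ⟨g, hg⟩ := D.semisimple f
    exact ⟨g, sub_eq_zero.1 (h1 _ hg)⟩
  exact ⟨h1, h2, abelian_of_regular h2⟩

end Pool.Agent.V7H82.MO
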