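import Mathlib

/-!
# Von Neumann regular idempotent complete categories are abelian
-/

set_option autoImplicit false

universe v u

namespace Pool.Agent.V7H82.MO

open CategoryTheory CategoryTheory.Limits

variable {C : Type u} [Category.{v} C] [Preadditive C]

section

variable {M N : C} {f : M ⟶ N} {g : N ⟶ M}

theorem hasKernel [IsIdempotentComplete C] (h : f ≫ g ≫ f = f) : HasKernel f := by
  have h1 : (𝟙 M - f ≫ g) ≫ (𝟙 M - f ≫ g) = 𝟙 M - f ≫ g := by
    have h2 : (f ≫ g) ≫ f ≫ g = f ≫ g := by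
      rw [Category.assoc, ← Category.assoc g, ← Category.assoc f, h]
    rw [Preadditive.sub_comp, Preadditive.comp_sub, Preadditive.comp_sub, Category.id_comp,
      Category.comp_id, Category.id_comp, h2, sub_self, sub_zero]
  obtain ⟨Y, i, e, h2, h3⟩ := IsIdempotentComplete.idempotents_split M (𝟙 M - f ≫ g) h1
  have h4 : i ≫ f = 0 := by
    have h5 : i = i ≫ (𝟙 M - f ≫ g) := by rw [← h3, ← Category.assoc, h2, Category.id_comp]
    rw [h5, Category.assoc, Preadditive.sub_comp, Category.id_comp, Category.assoc, h, sub_self,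
      comp_zero]
  have h6 : Mono i := ⟨fun a b hab => by
    rw [← Category.comp_id a, ← Category.comp_id b, ← h2, ← Category.assoc, ← Category.assoc, hab]⟩
  refine HasLimit.mk ⟨KernelFork.ofι i h4, KernelFork.IsLimit.ofι' i h4 fun {W} k hk => ?_⟩
  refine ⟨k ≫ e, ?_⟩
  rw [Category.assoc, h3, Preadditive.comp_sub, Category.comp_id, ← Category.assoc, hk, zero_comp,
    sub_zero]

theorem hasCokernel [IsIdempotentComplete C] (h : f ≫ g ≫ f = f) : HasCokernel f := by
  have h1 : (𝟙 N - g ≫ f) ≫ (𝟙 N - g ≫ f) = 𝟙 N - g ≫ f := by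
    have h2 : (g ≫ f) ≫ g ≫ f = g ≫ f := by
      rw [Category.assoc, h]
    rw [Preadditive.sub_comp, Preadditive.comp_sub, Preadditive.comp_sub, Category.id_comp,
      Category.comp_id, Category.id_comp, h2, sub_self, sub_zero]
  obtain ⟨Y, i, e, h2, h3⟩ := IsIdempotentComplete.idempotents_split N (𝟙 N - g ≫ f) h1
  have h4 : f ≫ e = 0 := by
    have h5 : e = (𝟙 N - g ≫ f) ≫ e := by rw [← h3, Category.assoc, h2, Category.comp_id]
    rw [h5, ← Category.assoc, Preadditive.comp_sub, Category.comp_id, h, sub_self, zero_comp]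
  have h6 : Epi e := ⟨fun a b hab => by
    rw [← Category.id_comp a, ← Category.id_comp b, ← h2, Category.assoc, Category.assoc, hab]⟩
  refine HasColimit.mk ⟨CokernelCofork.ofπ e h4, CokernelCofork.IsColimit.ofπ' e h4
    fun {W} k hk => ?_⟩
  refine ⟨i ≫ k, ?_⟩
  rw [← Category.assoc, h3, Preadditive.sub_comp, Category.id_comp, Category.assoc, hk, comp_zero,
    sub_zero]

theorem normalMono [Mono f] (h : f ≫ g ≫ f = f) : Nonempty (NormalMono f) := by
  have h1 : f ≫ (𝟙 N - g ≫ f) = 0 := by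
    rw [Preadditive.comp_sub, Category.comp_id, h, sub_self]
  refine ⟨⟨N, 𝟙 N - g ≫ f, h1, KernelFork.IsLimit.ofι' f h1 fun {W} k hk => ⟨k ≫ g, ?_⟩⟩⟩
  rw [Preadditive.comp_sub, Category.comp_id, sub_eq_zero] at hk
  rw [Category.assoc]
  exact hk.symm

theorem normalEpi [Epi f] (h : f ≫ g ≫ f = f) : Nonempty (NormalEpi f) := by
  have h1 : (𝟙 M - f ≫ g) ≫ f = 0 := by
    rw [Preadditive.sub_comp, Category.id_comp, Category.assoc, h, sub_self]
  refine ⟨⟨M, 𝟙 M - f ≫ g, h1, CokernelCofork.IsColimit.ofπ' f h1 fun {W} k hk => ⟨g ≫ k, ?_⟩⟩⟩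
  rw [Preadditive.sub_comp, Category.id_comp, sub_eq_zero] at hk
  rw [← Category.assoc]
  exact hk.symm

end

/-- A preadditive category with finite products and split idempotents in which each morphism `f`
has a quasi-inverse `g`, `f g f = f`, is abelian. -/
theorem abelian_of_regular [HasFiniteProducts C] [IsIdempotentComplete C]
    (h : ∀ {M N : C} (f : M ⟶ N), ∃ g : N ⟶ M, f ≫ g ≫ f = f) : Nonempty (Abelian C) := by
  have h1 : HasKernels C := ⟨fun {M N} f => by
    obtain ⟨g, hg⟩ := h f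
    exact hasKernel hg⟩
  have h2 : HasCokernels C := ⟨fun {M N} f => by
    obtain ⟨g, hg⟩ := h f
    exact hasCokernel hg⟩
  have h3 : IsNormalMonoCategory C := ⟨fun {M N} f _ => by
    obtain ⟨g, hg⟩ := h f
    exact normalMono hg⟩
  have h4 : IsNormalEpiCategory C := ⟨fun {M N} f _ => by
    obtain ⟨g, hg⟩ := h f
    exact normalEpi hg⟩
  exact ⟨{ }⟩

end Pool.Agent.V7H82.MO
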